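import Mathlib

/-!
# A language which absorbs finite-state translations

`M0` is the least language which contains the empty word and the code of each nonempty sequence of
tables whose run from state `0` has its output in `M0`. We show that along `β γ^n` the right
congruence of `M0` always has a repetition.
-/

set_option autoImplicit false

namespace Q222.CP

/-- tables: next state and output for each state -/
abbrev Tab : Type := List (ℕ × List ℕ)

/-- total length of the outputs -/
def sz (t : Tab) : ℕ := (t.map fun p => p.2.length).sum

/-- an injective numbering of the tables with `sz t ≤ ee t` -/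
def ee (t : Tab) : ℕ := Nat.pair (Encodable.encode t) (sz t)

theorem sz_le_ee (t : Tab) : sz t ≤ ee t := Nat.right_le_pair _ _

theorem ee_inj {t t' : Tab} (h : ee t = ee t') : t = t' := by
  have := (Nat.pair_eq_pair.1 h).1
  exact Encodable.encode_injective this

open Classical in
/-- a word which is not ultimately periodic -/
noncomputable def rw (n : ℕ) : ℕ := if IsSquare n then 1 else 0

theorem rw_ne (n : ℕ) : rw n ≠ 2 := by
  unfold rw; split_ifs <;> omega

theorem rw_np (N p : ℕ) (hp : 0 < p) : ∃ k, rw (N + p + k) ≠ rw (N + k) := by
  by_contra h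
  push Not at h
  -- choose a big square
  let a := N + p + 1
  have h1 : N ≤ a * a := by
    have : a ≤ a * a := Nat.le_mul_self a
    omega
  have h2 := h (a * a - N)
  have e1 : N + (a * a - N) = a * a := by omega
  have e2 : N + p + (a * a - N) = a * a + p := by omega
  rw [e1, e2] at h2
  have h3 : rw (a * a) = 1 := by unfold rw; rw [if_pos ⟨a, rfl⟩]
  rw [h3] at h2
  have h4 : IsSquare (a * a + p) := by
    by_contra h4
    unfold rw at h2
    rw [if_neg h4] at h2
    omega
  obtain ⟨b, hb⟩ := h4
  have h5 : a < b := by
    by_contra h5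
    have := Nat.mul_self_le_mul_self (not_lt.1 h5)
    omega
  have h6 : (a + 1) * (a + 1) ≤ b * b := Nat.mul_self_le_mul_self h5
  have h7 : (a + 1) * (a + 1) = a * a + 2 * a + 1 := by ring
  omega

/-- prefixes of the word -/
noncomputable def pre (n : ℕ) : List ℕ := (List.range n).map rw

theorem pre_length (n : ℕ) : (pre n).length = n := by simp [pre]

theorem pre_ne (n : ℕ) : (2 : ℕ) ∉ pre n := by
  intro h
  obtain ⟨k, -, h⟩ := List.mem_map.1 h
  exact rw_ne k h

/-- code of a table -/
noncomputable def code1 (t : Tab) : List ℕ := pre (ee t) ++ [2]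

/-- code of a sequence of tables -/
noncomputable def code (ts : List Tab) : List ℕ := ts.flatMap code1

@[simp] theorem code_nil : code [] = [] := rfl

theorem code_cons (t : Tab) (ts : List Tab) : code (t :: ts) = pre (ee t) ++ 2 :: code ts := by
  simp [code, code1]

theorem code_append (ts ts' : List Tab) : code (ts ++ ts') = code ts ++ code ts' := by
  simp [code]

/-- run of a sequence of tables: last state and output -/
def run : ℕ → List Tab → Option (ℕ × List ℕ)
  | s, [] => some (s, [])
  | s, t :: ts =>
    match t[s]? with
    | none => none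
    | some p => (run p.1 ts).map fun q => (q.1, p.2 ++ q.2)

theorem run_append (ts ts' : List Tab) : ∀ s, run s (ts ++ ts') =
    match run s ts with
    | none => none
    | some p => (run p.1 ts').map fun q => (q.1, p.2 ++ q.2) := by
  induction ts with
  | nil => intro s; simp [run]
  | cons t ts ih =>
    intro s
    simp only [List.cons_append, run]
    cases h : t[s]? with
    | none => rfl
    | some p =>
      simp only
      rw [ih]
      cases h1 : run p.1 ts with
      | none => rfl
      | some q =>
        simp only [Option.map_some]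
        cases h2 : run q.1 ts' with
        | none => rfl
        | some q' => simp

/-- the language -/
inductive M0 : List ℕ → Prop
  | nil : M0 []
  | step (ts : List Tab) (s : ℕ) (u : List ℕ) (h : run 0 ts = some (s, u)) (hu : M0 u) :
      M0 (code ts)

/-! ### Parsing -/

theorem split2 {a b x y : List ℕ} (ha : (2 : ℕ) ∉ a) (hb : (2 : ℕ) ∉ b)
    (h : a ++ 2 :: x = b ++ 2 :: y) : a = b ∧ x = y := by
  induction a generalizing b with
  | nil =>
    cases b with
    | nil => simpa using h
    | cons c b =>
      simp only [List.nil_append, List.cons_append, List.cons.injEq] at h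
      exact (hb (by rw [← h.1]; simp)).elim
  | cons c a ih =>
    cases b with
    | nil =>
      simp only [List.nil_append, List.cons_append, List.cons.injEq] at h
      exact (ha (by rw [h.1]; simp)).elim
    | cons d b =>
      simp only [List.cons_append, List.cons.injEq] at h
      obtain ⟨rfl, h⟩ := h
      obtain ⟨rfl, rfl⟩ := ih (fun hh => ha (List.mem_cons_of_mem _ hh))
        (fun hh => hb (List.mem_cons_of_mem _ hh)) h
      exact ⟨rfl, rfl⟩

theorem code_cut (ts : List Tab) : ∀ (ts' : List Tab) (x : List ℕ), code ts ++ x = code ts' →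
    ∃ ts3, ts' = ts ++ ts3 ∧ x = code ts3 := by
  induction ts with
  | nil => intro ts' x h; exact ⟨ts', rfl, h⟩
  | cons t ts ih =>
    intro ts' x h
    rw [code_cons, List.append_assoc, List.cons_append] at h
    cases ts' with
    | nil => simp at h
    | cons t' ts' =>
      rw [code_cons] at h
      obtain ⟨h1, h2⟩ := split2 (pre_ne _) (pre_ne _) h
      have h3 : ee t = ee t' := by
        have := congrArg List.length h1
        rwa [pre_length, pre_length] at this
      obtain rfl := ee_inj h3
      obtain ⟨ts3, rfl, rfl⟩ := ih ts' x h2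
      exact ⟨ts3, rfl, rfl⟩

theorem code_inj {ts ts' : List Tab} (h : code ts = code ts') : ts = ts' := by
  obtain ⟨ts3, rfl, h2⟩ := code_cut ts ts' [] (by rw [List.append_nil, h])
  cases ts3 with
  | nil => simp
  | cons t ts3 => rw [code_cons] at h2; simp at h2

theorem M0_code {ts : List Tab} : M0 (code ts) ↔ ∃ s u, run 0 ts = some (s, u) ∧ M0 u := by
  constructor
  · intro h
    generalize hw : code ts = w at h
    cases h with
    | nil =>
      have : ts = [] := code_inj (by rw [hw, code_nil])
      subst this
      exact ⟨0, [], rfl, .nil⟩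
    | step ts' s u h hu =>
      obtain rfl := code_inj hw
      exact ⟨s, u, h, hu⟩
  · rintro ⟨s, u, h, hu⟩
    exact .step ts s u h hu

theorem M0_iff {w : List ℕ} : M0 w ↔ ∃ ts, w = code ts ∧ M0 (code ts) := by
  constructor
  · intro h
    cases h with
    | nil => exact ⟨[], rfl, .nil⟩
    | step ts s u h hu => exact ⟨ts, rfl, .step ts s u h hu⟩
  · rintro ⟨ts, rfl, h⟩
    exact h

/-- right congruence -/
def Eqv (u v : List ℕ) : Prop := ∀ x, M0 (u ++ x) ↔ M0 (v ++ x)

/-- dead words -/
def Dead (u : List ℕ) : Prop := ∀ x, ¬ M0 (u ++ x)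

theorem Dead.append {u : List ℕ} (h : Dead u) (v : List ℕ) : Dead (u ++ v) := by
  intro x
  rw [List.append_assoc]
  exact h _

theorem Dead.eqv {u v : List ℕ} (h : Dead u) (h' : Dead v) : Eqv u v := fun x =>
  ⟨fun hh => (h x hh).elim, fun hh => (h' x hh).elim⟩

theorem Eqv.append {u v : List ℕ} (h : Eqv u v) (w : List ℕ) : Eqv (u ++ w) (v ++ w) := by
  intro x
  rw [List.append_assoc, List.append_assoc]
  exact h _

theorem Eqv.symm {u v : List ℕ} (h : Eqv u v) : Eqv v u := fun x => (h x).symm

theorem code_imp {ts ts' : List Tab} {s : ℕ} {u u' : List ℕ} (h : run 0 ts = some (s, u))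
    (h' : run 0 ts' = some (s, u')) (hu : Eqv u u') (x : List ℕ) (hx : M0 (code ts ++ x)) :
    M0 (code ts' ++ x) := by
  obtain ⟨ts2, e, h2⟩ := M0_iff.1 hx
  obtain ⟨ts3, rfl, rfl⟩ := code_cut _ _ _ e
  obtain ⟨s4, u4, h4, h5⟩ := M0_code.1 h2
  rw [run_append, h] at h4
  simp only at h4
  rw [← code_append, M0_code]
  rw [run_append, h']
  simp only
  cases h6 : run s ts3 with
  | none => rw [h6] at h4; simp at h4
  | some q =>
    rw [h6] at h4
    simp only [Option.map_some, Option.some.injEq, Prod.mk.injEq] at h4 ⊢
    obtain ⟨rfl, rfl⟩ := h4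
    exact ⟨_, _, ⟨rfl, rfl⟩, (hu _).1 h5⟩

theorem code_eqv {ts ts' : List Tab} {s : ℕ} {u u' : List ℕ} (h : run 0 ts = some (s, u))
    (h' : run 0 ts' = some (s, u')) (hu : Eqv u u') : Eqv (code ts) (code ts') := fun x =>
  ⟨code_imp h h' hu x, code_imp h' h hu.symm x⟩

theorem code_dead {ts : List Tab} (h : run 0 ts = none) : Dead (code ts) := by
  intro x hx
  obtain ⟨ts2, e, h2⟩ := M0_iff.1 hx
  obtain ⟨ts3, rfl, rfl⟩ := code_cut _ _ _ e
  obtain ⟨s4, u4, h4, h5⟩ := M0_code.1 h2
  rw [run_append, h] at h4
  simp at h4

theorem cut2 (ts : List Tab) : ∀ (w x : List ℕ), code ts = w ++ 2 :: x →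
    ∃ ts', w ++ [2] = code ts' := by
  induction ts with
  | nil => intro w x h; simp at h
  | cons t ts ih =>
    intro w x h
    rw [code_cons] at h
    rcases List.append_eq_append_iff.1 h with ⟨a, h1, h2⟩ | ⟨a, h1, h2⟩
    · cases a with
      | nil =>
        simp only [List.append_nil] at h1
        exact ⟨[t], by rw [code_cons, h1]; rfl⟩
      | cons b a =>
        simp only [List.cons_append, List.cons.injEq] at h2
        obtain ⟨rfl, h2⟩ := h2
        obtain ⟨ts', h3⟩ := ih a x h2
        refine ⟨t :: ts', ?_⟩
        rw [code_cons, ← h3, h1]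
        simp
    · cases a with
      | nil =>
        simp only [List.append_nil] at h1
        exact ⟨[t], by rw [code_cons, h1]; rfl⟩
      | cons b a =>
        simp only [List.cons_append, List.cons.injEq] at h2
        obtain ⟨rfl, h2⟩ := h2
        exact (pre_ne (ee t) (by rw [h1]; simp)).elim

/-- a word ending in `2` is a code or dead -/
theorem code_or_dead (w : List ℕ) : (∃ ts, w ++ [2] = code ts) ∨ Dead (w ++ [2]) := by
  by_cases h : Dead (w ++ [2])
  · exact Or.inr h
  · left
    unfold Dead at h
    push Not at h
    obtain ⟨x, hx⟩ := h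
    obtain ⟨ts, e, -⟩ := M0_iff.1 hx
    exact cut2 ts w x (by rw [← e]; simp)

/-! ### Powers -/

/-- powers of words -/
def pw {α : Type} (g : List α) (n : ℕ) : List α := (List.replicate n g).flatten

@[simp] theorem pw_zero {α : Type} (g : List α) : pw g 0 = [] := rfl

theorem pw_succ {α : Type} (g : List α) (n : ℕ) : pw g (n + 1) = g ++ pw g n := by
  simp [pw, List.replicate_succ]

theorem pw_succ' {α : Type} (g : List α) (n : ℕ) : pw g (n + 1) = pw g n ++ g := by
  simp [pw, List.replicate_succ']

theorem pw_add {α : Type} (g : List α) (m n : ℕ) : pw g (m + n) = pw g m ++ pw g n := by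
  unfold pw
  rw [List.replicate_add, List.flatten_append]

theorem code_pw (G : List Tab) (n : ℕ) : code (pw G n) = pw (code G) n := by
  induction n with
  | zero => rfl
  | succ n ih => rw [pw_succ, pw_succ, code_append, ih]

theorem pw_rot (a b : List ℕ) (n : ℕ) : pw (a ++ b) (n + 1) = a ++ pw (b ++ a) n ++ b := by
  induction n with
  | zero => simp [pw_succ]
  | succ n ih => rw [pw_succ, ih, pw_succ]; simp

theorem pw_length {α : Type} (g : List α) (n : ℕ) : (pw g n).length = n * g.length := by
  induction n with
  | zero => simp
  | succ n ih => rw [pw_succ, List.length_append, ih]; ring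

/-- the property to be shown -/
def Rep (β γ : List ℕ) : Prop := ∃ n n' : ℕ, n < n' ∧ Eqv (β ++ pw γ n) (β ++ pw γ n')

theorem Rep_of_dead {β γ : List ℕ} {n : ℕ} (h : Dead (β ++ pw γ n)) : Rep β γ := by
  refine ⟨n, n + 1, by omega, h.eqv ?_⟩
  rw [pw_succ', ← List.append_assoc]
  exact h.append _

theorem exists_tail (β : List ℕ) : (2 : ℕ) ∉ β ∨ ∃ a b, β = a ++ 2 :: b ∧ (2 : ℕ) ∉ b := by
  induction β using List.reverseRecOn with
  | nil => left; simp
  | append_singleton β c ih =>
    by_cases hc : c = 2
    · right; exact ⟨β, [], by rw [hc], by simp⟩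
    · rcases ih with h | ⟨a, b, rfl, h⟩
      · left
        intro h2
        rcases List.mem_append.1 h2 with h2 | h2
        · exact h h2
        · simp at h2; exact hc h2.symm
      · right
        refine ⟨a, b ++ [c], by simp, ?_⟩
        intro h2
        rcases List.mem_append.1 h2 with h2 | h2
        · exact h h2
        · simp at h2; exact hc h2.symm

theorem tail_pre {B : List Tab} {w : List ℕ} (hw : (2 : ℕ) ∉ w) (hd : ¬ Dead (code B ++ w)) :
    w = pre w.length := by
  unfold Dead at hd
  push Not at hd
  obtain ⟨x, hx⟩ := hd
  obtain ⟨ts, e, -⟩ := M0_iff.1 hx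
  rw [List.append_assoc] at e
  obtain ⟨ts3, rfl, h⟩ := code_cut _ _ _ e
  cases ts3 with
  | nil =>
    simp only [code_nil, List.append_eq_nil_iff] at h
    rw [h.1]
    simp [pre]
  | cons t ts3 =>
    rw [code_cons] at h
    rcases List.append_eq_append_iff.1 h with ⟨a, h1, h2⟩ | ⟨a, h1, h2⟩
    · -- pre (ee t) = w ++ a
      have h3 : w.length ≤ ee t := by
        have := congrArg List.length h1
        rw [pre_length, List.length_append] at this
        omega
      have h4 : w = (pre (ee t)).take w.length := by rw [h1]; simp
      rw [h4]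
      simp only [pre, ← List.map_take, List.take_range]
      rw [min_eq_left h3]
      simp
    · cases a with
      | nil =>
        simp only [List.append_nil] at h1
        rw [h1, pre_length]
      | cons b a =>
        simp only [List.cons_append, List.cons.injEq] at h2
        exact (hw (by rw [h1, ← h2.1]; simp)).elim

theorem rep_no2 {β γ : List ℕ} (hγ : γ ≠ []) (h2 : (2 : ℕ) ∉ γ) : Rep β γ := by
  by_contra hr
  have hd : ∀ n, ¬ Dead (β ++ pw γ n) := fun n h => hr (Rep_of_dead h)
  have hp : ∀ n, (2 : ℕ) ∉ pw γ n := by
    intro n h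
    simp only [pw, List.mem_flatten, List.mem_replicate] at h
    obtain ⟨l, ⟨-, rfl⟩, h⟩ := h
    exact h2 h
  -- β = code B ++ ρ
  obtain ⟨B, ρ, hβ, hρ⟩ : ∃ B ρ, β = code B ++ ρ ∧ (2 : ℕ) ∉ ρ := by
    rcases exists_tail β with h | ⟨a, b, rfl, h⟩
    · exact ⟨[], β, rfl, h⟩
    · rcases code_or_dead a with ⟨ts, h3⟩ | h3
      · exact ⟨ts, b, by rw [← h3]; simp, h⟩
      · exfalso
        apply hd 0
        have := h3.append b
        simpa using this
  have key : ∀ n, ρ ++ pw γ n = pre (ρ.length + n * γ.length) := by
    intro n
    have h3 := tail_pre (B := B) (w := ρ ++ pw γ n) (by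
      intro h
      rcases List.mem_append.1 h with h | h
      · exact hρ h
      · exact hp n h) (by
        have := hd n
        rwa [hβ, List.append_assoc] at this)
    rw [List.length_append, pw_length] at h3
    exact h3
  have hl : 0 < γ.length := List.length_pos_of_ne_nil hγ
  obtain ⟨k, hk⟩ := rw_np ρ.length γ.length hl
  have hkl : k < (k + 1) * γ.length := by nlinarith
  have k1 : (pre (ρ.length + (k + 1) * γ.length))[ρ.length + k]? = some (rw (ρ.length + k)) := by
    simp only [pre, List.getElem?_map]
    rw [List.getElem?_range (by omega)]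
    rfl
  have k2 : (pre (ρ.length + (k + 1 + 1) * γ.length))[ρ.length + γ.length + k]? =
      some (rw (ρ.length + γ.length + k)) := by
    simp only [pre, List.getElem?_map]
    rw [List.getElem?_range (by nlinarith)]
    rfl
  rw [← key] at k1 k2
  rw [List.getElem?_append_right (by omega)] at k1
  rw [List.getElem?_append_right (by omega), pw_succ, List.getElem?_append_right (by omega)] at k2
  have e1 : ρ.length + k - ρ.length = k := by omega
  have e2 : ρ.length + γ.length + k - ρ.length - γ.length = k := by omega
  rw [e1] at k1
  rw [e2, k1] at k2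
  exact hk (Option.some.inj k2).symm

/-! ### Cycles -/

theorem sz_sum (t : Tab) (S : Finset ℕ) (f : ℕ → ℕ × List ℕ)
    (h : ∀ s ∈ S, t[s]? = some (f s)) : ∑ s ∈ S, (f s).2.length ≤ sz t := by
  induction t generalizing S f with
  | nil =>
    have : S = ∅ := by
      by_contra hS
      obtain ⟨s, hs⟩ := Finset.nonempty_iff_ne_empty.2 hS
      have := h s hs
      simp at this
    rw [this]; simp
  | cons p t ih =>
    -- split off 0
    let S' : Finset ℕ := (S.erase 0).image Nat.pred
    have hinj : Set.InjOn Nat.pred (S.erase 0 : Finset ℕ) := by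
      intro a ha b hb hab
      simp only [Finset.coe_erase, Set.mem_sdiff, Set.mem_singleton_iff] at ha hb
      have h1 := ha.2
      have h2 := hb.2
      simp only [Nat.pred_eq_sub_one] at hab
      omega
    have h1 : ∑ s ∈ S.erase 0, (f s).2.length = ∑ s ∈ S', (f (s + 1)).2.length := by
      rw [Finset.sum_image hinj]
      refine Finset.sum_congr rfl fun s hs => ?_
      have : s ≠ 0 := (Finset.mem_erase.1 hs).1
      have e : s.pred + 1 = s := Nat.succ_pred this
      rw [e]
    have h2 : ∑ s ∈ S', (f (s + 1)).2.length ≤ sz t := by
      refine ih S' (fun s => f (s + 1)) fun s hs => ?_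
      obtain ⟨a, ha, rfl⟩ := Finset.mem_image.1 hs
      have h0 : a ≠ 0 := (Finset.mem_erase.1 ha).1
      have e : a.pred + 1 = a := Nat.succ_pred h0
      have h3 := h a (Finset.mem_erase.1 ha).2
      rw [← e, List.getElem?_cons_succ] at h3
      rw [h3]
    have h3 : sz (p :: t) = p.2.length + sz t := by simp [sz]
    rw [h3]
    by_cases h0 : 0 ∈ S
    · rw [← Finset.add_sum_erase _ _ h0, h1]
      have h4 := h 0 h0
      simp only [List.getElem?_cons_zero, Option.some.injEq] at h4
      rw [← h4]
      omega
    · rw [Finset.erase_eq_of_notMem h0] at h1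
      rw [h1]
      omega

theorem run_sum (G : List Tab) : ∀ (S : Finset ℕ) (f : ℕ → ℕ × List ℕ),
    (∀ s ∈ S, run s G = some (f s)) → Set.InjOn (fun s => (f s).1) (S : Set ℕ) →
    ∑ s ∈ S, (f s).2.length ≤ (G.map sz).sum := by
  induction G with
  | nil =>
    intro S f h _
    have : ∑ s ∈ S, (f s).2.length = 0 := by
      refine Finset.sum_eq_zero fun s hs => ?_
      have := h s hs
      simp only [run, Option.some.injEq] at this
      rw [← this]; rfl
    rw [this]; simp
  | cons t G ih =>
    intro S f h hinj
    -- first table
    have h1 : ∀ s ∈ S, ∃ p : ℕ × List ℕ, t[s]? = some p ∧ ∃ q : ℕ × List ℕ,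
        run p.1 G = some q ∧ f s = (q.1, p.2 ++ q.2) := by
      intro s hs
      have h2 := h s hs
      simp only [run] at h2
      cases h3 : t[s]? with
      | none => rw [h3] at h2; simp at h2
      | some p =>
        rw [h3] at h2
        simp only at h2
        cases h4 : run p.1 G with
        | none => rw [h4] at h2; simp at h2
        | some q =>
          rw [h4] at h2
          simp only [Option.map_some, Option.some.injEq] at h2
          exact ⟨p, rfl, q, h4, h2.symm⟩
    choose! g hg k hk hf using h1
    have hg2 : Set.InjOn (fun s => (g s).1) (S : Set ℕ) := by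
      intro a ha b hb hab
      apply hinj ha hb
      have h3 := hk a ha
      have h4 := hk b hb
      simp only at hab ⊢
      rw [hab, h4] at h3
      have h5 := Option.some.inj h3
      rw [hf a ha, hf b hb, h5]
    let S' : Finset ℕ := S.image fun s => (g s).1
    -- choose the run results on the image
    have h6 : ∀ s' ∈ S', run s' G = some ((run s' G).getD (0, [])) := by
      intro s' hs'
      obtain ⟨s, hs, rfl⟩ := Finset.mem_image.1 hs'
      rw [hk s hs]; rfl
    have h7 := ih S' (fun s' => (run s' G).getD (0, [])) h6 (by
      intro a ha b hb hab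
      simp only [S', Finset.coe_image, Set.mem_image, Finset.mem_coe] at ha hb
      obtain ⟨s, hs, rfl⟩ := ha
      obtain ⟨s', hs', rfl⟩ := hb
      simp only at hab
      rw [hk s hs, hk s' hs'] at hab
      simp only [Option.getD_some] at hab
      have : s = s' := hinj hs hs' (by
        simp only
        rw [hf s hs, hf s' hs']
        exact hab)
      rw [this])
    rw [Finset.sum_image hg2] at h7
    have h8 := sz_sum t S g hg
    have h9 : ∑ s ∈ S, (f s).2.length = ∑ s ∈ S, (g s).2.length +
        ∑ s ∈ S, ((run (g s).1 G).getD (0, [])).2.length := by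
      rw [← Finset.sum_add_distrib]
      refine Finset.sum_congr rfl fun s hs => ?_
      rw [hf s hs, hk s hs]
      simp
    rw [h9, List.map_cons, List.sum_cons]
    omega

theorem code_length (G : List Tab) : (code G).length = (G.map fun t => ee t + 1).sum := by
  induction G with
  | nil => rfl
  | cons t G ih =>
    rw [code_cons, List.length_append, pre_length, List.length_cons, ih]
    simp only [List.map_cons, List.sum_cons]
    omega

theorem sz_lt (G : List Tab) (hG : G ≠ []) : (G.map sz).sum < (code G).length := by
  rw [code_length]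
  have h1 : ∀ G : List Tab, (G.map sz).sum ≤ (G.map fun t => ee t + 1).sum := by
    intro G
    induction G with
    | nil => simp
    | cons t G ih =>
      simp only [List.map_cons, List.sum_cons]
      have := sz_le_ee t
      omega
  cases G with
  | nil => exact (hG rfl).elim
  | cons t G =>
    simp only [List.map_cons, List.sum_cons]
    have := sz_le_ee t
    have := h1 G
    omega

theorem rep_code (B G : List Tab) (hG : G ≠ [])
    (ih : ∀ β' γ' : List ℕ, γ'.length < (code G).length → Rep β' γ') :
    Rep (code B) (code G) := by
  by_contra hr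
  have hd : ∀ n, ¬ Dead (code B ++ pw (code G) n) := fun n h => hr (Rep_of_dead h)
  have hrun : ∀ n, ∃ p, run 0 (B ++ pw G n) = some p := by
    intro n
    cases h : run 0 (B ++ pw G n) with
    | some p => exact ⟨p, rfl⟩
    | none =>
      have := code_dead h
      rw [code_append, code_pw] at this
      exact (hd n this).elim
  choose p hp using hrun
  -- the next state depends only on the state
  have hstep : ∀ n, ∃ q, run (p n).1 G = some q ∧ p (n + 1) = (q.1, (p n).2 ++ q.2) := by
    intro n
    have h1 := hp (n + 1)
    rw [pw_succ', ← List.append_assoc, run_append, hp n] at h1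
    simp only at h1
    cases h2 : run (p n).1 G with
    | none => rw [h2] at h1; simp at h1
    | some q =>
      rw [h2] at h1
      simp only [Option.map_some, Option.some.injEq] at h1
      exact ⟨q, rfl, h1.symm⟩
  choose q hq hq2 using hstep
  let s : ℕ → ℕ := fun n => (p n).1
  have hsq : ∀ n, s (n + 1) = (q n).1 := fun n => by simp only [s]; rw [hq2]
  have hdet : ∀ m n, s m = s n → q m = q n := by
    intro m n h
    have h1 := hq m
    have h2 := hq n
    simp only [s] at h
    rw [h, h2] at h1
    exact (Option.some.inj h1).symm
  -- bounded states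
  obtain ⟨t, G', rfl⟩ := List.exists_cons_of_ne_nil hG
  have hb : ∀ n, s n < t.length := by
    intro n
    have h1 := hq n
    simp only [run] at h1
    by_contra h2
    have h3 : t[(p n).1]? = none := List.getElem?_eq_none (not_lt.1 h2)
    rw [h3] at h1
    simp at h1
  have hex : ∃ j, ∃ i < j, s i = s j := by
    obtain ⟨i, j, hij, h⟩ := Finite.exists_ne_map_eq_of_infinite
      (fun n => (⟨s n, hb n⟩ : Fin t.length))
    simp only [Fin.mk.injEq] at h
    rcases Nat.lt_or_ge i j with h1 | h1
    · exact ⟨j, i, h1, h⟩
    · exact ⟨i, j, by omega, h.symm⟩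
  obtain ⟨j, ⟨i, hij, hs⟩, hmin⟩ : ∃ j, (∃ i < j, s i = s j) ∧ ∀ j' < j, ¬ ∃ i < j', s i = s j' := by
    classical
    exact ⟨Nat.find hex, Nat.find_spec hex, fun j' hj' => Nat.find_min hex hj'⟩
  have hdist : ∀ a b, a < b → b < j → s a ≠ s b := fun a b hab hbj h => hmin b hbj ⟨a, hab, h⟩
  -- output over the cycle
  let γ' : List ℕ := (List.range (j - i)).flatMap fun k => (q (i + k)).2
  have hout : ∀ m, ∀ n, (p (n + m)).2 = (p n).2 ++ (List.range m).flatMap fun k => (q (n + k)).2 := by
    intro m
    induction m with
    | zero => intro n; simp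
    | succ m ihm =>
      intro n
      rw [List.range_succ, List.flatMap_append, ← List.append_assoc, ← ihm n]
      have : n + (m + 1) = (n + m) + 1 := by ring
      rw [this, hq2]
      simp
  have hper : ∀ k, s (j + k) = s (i + k) := by
    intro k
    induction k with
    | zero => simpa using hs.symm
    | succ k ihk =>
      have e1 : j + (k + 1) = (j + k) + 1 := by ring
      have e2 : i + (k + 1) = (i + k) + 1 := by ring
      rw [e1, e2, hsq, hsq, hdet _ _ ihk]
  let d := j - i
  have hd0 : 0 < d := by simp only [d]; omega
  have hper2 : ∀ n k, s (i + d * n + k) = s (i + k) := by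
    intro n
    induction n with
    | zero => intro k; simp
    | succ n ihn =>
      intro k
      have e1 : i + d * (n + 1) + k = i + d * n + (d + k) := by ring
      rw [e1, ihn]
      have e2 : i + (d + k) = j + k := by simp only [d]; omega
      rw [e2, hper]
  have hcyc : ∀ n, (p (i + d * n)).2 = (p i).2 ++ pw γ' n := by
    intro n
    induction n with
    | zero => simp
    | succ n ihn =>
      have e1 : i + d * (n + 1) = (i + d * n) + d := by ring
      rw [e1, hout, ihn, pw_succ', List.append_assoc]
      congr 2
      simp only [γ']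
      congr 1
      funext k
      rw [hdet _ _ (hper2 n k)]
  -- the cycle is short
  have hlen : γ'.length < (code (t :: G')).length := by
    refine lt_of_le_of_lt ?_ (sz_lt (t :: G') (by simp))
    let S : Finset ℕ := (Finset.range d).image fun k => s (i + k)
    have hS : Set.InjOn (fun k => s (i + k)) (Finset.range d : Set ℕ) := by
      intro a ha b hb hab
      simp only [Finset.coe_range, Set.mem_Iio] at ha hb
      rcases lt_trichotomy a b with h | h | h
      · exact (hdist (i + a) (i + b) (by omega) (by simp only [d] at hb; omega) hab).elim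
      · exact h
      · exact (hdist (i + b) (i + a) (by omega) (by simp only [d] at ha; omega) hab.symm).elim
    have h1 : γ'.length = ∑ x ∈ S, ((run x (t :: G')).getD (0, [])).2.length := by
      rw [Finset.sum_image hS]
      simp only [γ', List.length_flatMap]
      have e : ∀ (f : ℕ → ℕ) (m : ℕ), ((List.range m).map f).sum = ∑ k ∈ Finset.range m, f k := by
        intro f m
        induction m with
        | zero => rfl
        | succ m ihm => rw [List.range_succ, List.map_append, List.sum_append, ihm,
            Finset.sum_range_succ]; simp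
      rw [e]
      refine Finset.sum_congr rfl fun k _ => ?_
      have := hq (i + k)
      simp only [s]
      rw [this]
      rfl
    rw [h1]
    refine run_sum (t :: G') S (fun x => (run x (t :: G')).getD (0, [])) ?_ ?_
    · intro x hx
      obtain ⟨k, -, rfl⟩ := Finset.mem_image.1 hx
      simp only [s]
      rw [hq (i + k)]
      rfl
    · intro x hx y hy hxy
      simp only [S, Finset.coe_image, Set.mem_image, Finset.coe_range, Set.mem_Iio] at hx hy
      obtain ⟨a, ha, rfl⟩ := hx
      obtain ⟨b, hb, rfl⟩ := hy
      simp only [s] at hxy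
      rw [hq (i + a), hq (i + b)] at hxy
      simp only [Option.getD_some] at hxy
      rw [← hsq, ← hsq] at hxy
      -- s (i + a + 1) = s (i + b + 1)
      by_contra hne
      have hab : a ≠ b := fun h => hne (by rw [h])
      have key : ∀ a b, a < b → b < d → s (i + a + 1) = s (i + b + 1) → False := by
        intro a b hab hbd h
        by_cases hb1 : b + 1 < d
        · exact hdist (i + a + 1) (i + b + 1) (by omega) (by simp only [d] at hb1; omega) h
        · have e1 : i + b + 1 = j := by simp only [d] at hbd hb1; omega
          rw [e1, ← hs] at h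
          exact hdist i (i + a + 1) (by omega) (by simp only [d] at hbd; omega) h.symm
      rcases Nat.lt_or_ge a b with h | h
      · exact key a b h hb hxy
      · exact key b a (by omega) ha hxy.symm
  obtain ⟨n, n', hn, he⟩ := ih (p i).2 γ' hlen
  apply hr
  refine ⟨i + d * n, i + d * n', ?_, ?_⟩
  · have := Nat.mul_lt_mul_of_pos_left hn hd0
    omega
  · rw [← code_pw, ← code_append, ← code_pw, ← code_append]
    have h1 := hp (i + d * n)
    have h2 := hp (i + d * n')
    have e1 : p (i + d * n) = (s i, (p i).2 ++ pw γ' n) := by
      rw [← hcyc n]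
      have := hper2 n 0
      simp only [add_zero] at this
      rw [← this]
    have e2 : p (i + d * n') = (s i, (p i).2 ++ pw γ' n') := by
      rw [← hcyc n']
      have := hper2 n' 0
      simp only [add_zero] at this
      rw [← this]
    rw [e1] at h1
    rw [e2] at h2
    exact code_eqv h1 h2 he

theorem rep_all (β γ : List ℕ) : Rep β γ := by
  induction hn : γ.length using Nat.strong_induction_on generalizing β γ with
  | _ N ih =>
    subst hn
    by_cases h0 : γ = []
    · subst h0
      refine ⟨0, 1, by omega, ?_⟩
      have : pw ([] : List ℕ) 1 = pw ([] : List ℕ) 0 := by simp [pw]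
      rw [this]
      exact fun x => Iff.rfl
    rcases exists_tail γ with h | ⟨a, b, rfl, h⟩
    · exact rep_no2 h0 h
    · -- γ = (a 2) b
      have e : ∀ n, β ++ pw (a ++ 2 :: b) (n + 1) = (β ++ a ++ [2]) ++ pw (b ++ a ++ [2]) n ++ b := by
        intro n
        have h1 := pw_rot (a ++ [2]) b n
        have e1 : a ++ [2] ++ b = a ++ 2 :: b := by simp
        have e2 : b ++ (a ++ [2]) = b ++ a ++ [2] := by simp
        rw [e1, e2] at h1
        rw [h1]
        simp
      have key : Rep (β ++ a ++ [2]) (b ++ a ++ [2]) := by
        rcases code_or_dead (β ++ a) with ⟨B, hB⟩ | hB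
        · by_cases hG : ∃ G, b ++ a ++ [2] = code G
          · obtain ⟨G, hG⟩ := hG
            rw [hB, hG]
            refine rep_code B G ?_ ?_
            · rintro rfl
              simp at hG
            · intro β' γ' hl
              refine ih γ'.length ?_ β' γ' rfl
              have := congrArg List.length hG
              simp only [List.length_append, List.length_cons, List.length_nil] at this ⊢
              omega
          · have h3 : Dead (β ++ a ++ [2] ++ pw (b ++ a ++ [2]) 1) := by
              intro x hx
              obtain ⟨ts, e2, h5⟩ := M0_iff.1 hx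
              rw [hB, List.append_assoc] at e2
              obtain ⟨ts3, rfl, h4⟩ := code_cut _ _ _ e2
              rw [pw_succ, pw_zero, List.append_nil, List.append_assoc] at h4
              have h6 : code ts3 = (b ++ a) ++ 2 :: x := by rw [← h4]; simp
              exact hG (cut2 ts3 _ _ h6)
            exact Rep_of_dead h3
        · exact Rep_of_dead (n := 0) (by simpa using hB)
      obtain ⟨n, n', hn, he⟩ := key
      refine ⟨n + 1, n' + 1, by omega, ?_⟩
      rw [e, e]
      exact he.append b

end Q222.CP
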